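import Pool.Agent.Results.MP_bae66e_nt.PalindromeWindows
import Pool.Agent.U837.CC.Mu

/-!
# The least prime in the Goldbach representations, and Goldbach pairs in all windows, for all even integers near multiples
# of concatenated polynomial values

For almost all `n ≤ x` the following holds for ALL the positive even integers `m` within `log ^ W x` of ALL the multiples
`h a`, `h ≤ log ^ J x`, of the integers `a` whose digits in some base `b ≤ log ^ W x` are those of `f_1(n)`, `f_2(n)`, ...,
`f_r(n)` written one after the other, where `f_1, ..., f_r` are ANY integer polynomials of distinct degrees between `1` and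
`D` with coefficients of absolute value at most `log ^ W x`: the least prime `g(m)` in the Goldbach representations of
`m` is at most `m / log ^ A m`, and the number of the representations with a prime in a given window of this length is the
predicted one. For given bases and polynomials these are thin sets: `x` integers of the size
`x ^ (deg f_1 + ... + deg f_r)`.

Definitions used from `Pool.Agent.H560R3.GB` (starting files): `sing m`: the singular series
`2 C₂ ∏_{p ∣ m, p > 2} (p - 1) / (p - 2)`, where `C₂ = ∏_{p > 2} (1 - 1 / (p - 1) ^ 2)`.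

Method: the integers with a given number of digits in every block are the values `∑_i b ^ (e_i) f_i(n)` of a polynomial
with huge coefficients. An inverse theorem for Weyl sums with ALL the coefficients (`Pool.Agent.U837.CC.IWF_all`, deduced
from the one for the leading coefficient in `H373R2/NB/Weyl`) shows, one block after the other, that a frequency `β` with
a large exponential sum is such that all the `b ^ (e_i) β` are close to rational numbers with one small denominator (here the
degrees have to be distinct); only a few frequencies have this property (`Pool.Agent.U837.CC.count_vec`), so that these values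
and their multiples have a minimal additive energy of high order (`Pool.Agent.U837.CC.cat_mult`) and the theorem of the
starting files on thin families of this kind (`R459.near_even`) applies. The number of the choices of the digit lengths, of
the base, of the factor and of the polynomials is only a power of the logarithm.
-/

set_option autoImplicit false

namespace Pool.Agent.Results.MP_bae66e_nt.Concatenations

open Finset Polynomial
open Pool.Agent.H560R3.GB (sing)

/-- The number of primes `p` with `y₁ < p ≤ y₂` such that `m - p` is a prime. -/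
def R (m y₁ y₂ : ℕ) : ℕ := ((Ioc y₁ y₂).filter (fun p => p.Prime ∧ (m - p).Prime)).card

/-- (1) There is a prime `p ≤ m / log ^ A m` such that `m - p` is a prime (thus `g(m) ≤ m / log ^ A m`
in the notation of the problem); (2) in every window `(y₁, y₂]` of a length of at least `m / log ^ A m`
with `0 ≤ y₁ < y₂ ≤ m` the number of primes `p` such that `m - p` is a prime agrees with
`sing m * (y₂ - y₁) / log ^ 2 m` up to a relative error of at most `ε`. -/
def Holds (ε : ℝ) (A m : ℕ) : Prop :=
  (∃ p : ℕ, p.Prime ∧ (m - p).Prime ∧ (p : ℝ) ≤ m / Real.log m ^ A) ∧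
  ∀ y₁ y₂ : ℕ, y₁ < y₂ → y₂ ≤ m → (m : ℝ) / Real.log m ^ A ≤ (y₂ : ℝ) - y₁ →
    |(R m y₁ y₂ : ℝ) - sing m * ((y₂ : ℝ) - y₁) / Real.log m ^ 2| ≤ ε * (sing m * ((y₂ : ℝ) - y₁) / Real.log m ^ 2)

lemma holds_of (A : ℕ) (ε : ℝ) (hε : 0 < ε) : ∃ m₀ : ℕ, ∀ m : ℕ, m₀ ≤ m → 2 ∣ m →
    Pool.Agent.W93.PG.WinP (min ε (1 / 2)) (A + 1) m → Holds ε A m := MP_bae66e_nt.PalindromeWindows.holds_of A ε hε

/-- The number whose digits in base `b`, read from the left to the right, are those of `f(n)`, `f ∈ F`, written one after
the other. -/
noncomputable def concat (b : ℕ) (F : List ℤ[X]) (n : ℕ) : ℕ :=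
  Nat.ofDigits b ((F.reverse.map (fun f => Nat.digits b (f.eval (n : ℤ)).toNat)).flatten)

/-- The base `b` satisfies `2 ≤ b ≤ r`; the list `F` is not empty, and the members of `F` have distinct degrees between `1`
and `D`, coefficients of absolute value at most `r`, and nonnegative values at `n`. -/
def Small (D : ℕ) (r : ℝ) (n b : ℕ) (F : List ℤ[X]) : Prop :=
  (2 ≤ b ∧ (b : ℝ) ≤ r) ∧ F ≠ [] ∧ (F.map natDegree).Nodup ∧
    ∀ f ∈ F, 1 ≤ f.natDegree ∧ f.natDegree ≤ D ∧ (∀ i, |((f.coeff i : ℤ) : ℝ)| ≤ r) ∧ 0 ≤ f.eval (n : ℤ)

open Classical in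
/-- The number of the `1 ≤ n ≤ x` for which there are a base `b` and a list `F` of polynomials with
`Small D (log ^ W x) n b F`, a factor `1 ≤ h ≤ log ^ J x` and an even integer `m > 0` with
`|m - h * concat b F n| ≤ log ^ W x` for which `Holds ε A m` fails. -/
noncomputable def exceptions (D : ℕ) (ε : ℝ) (A : ℕ) (J W x : ℕ) : ℕ :=
  ((Icc 1 x).filter (fun n => ∃ (b : ℕ) (F : List ℤ[X]), Small D (Real.log x ^ W) n b F ∧
    ∃ h m : ℕ, 1 ≤ h ∧ (h : ℝ) ≤ Real.log x ^ J ∧ 0 < m ∧ Even m ∧ |(m : ℝ) - h * concat b F n| ≤ Real.log x ^ W ∧
      ¬ Holds ε A m)).card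

/-- Let `D`, `A`, `J`, `W`, `U` and `ε > 0` be fixed, and let `x` be large. For all but at most `x / log ^ U x` of
the integers `1 ≤ n ≤ x`, for ALL the bases `b ≤ log ^ W x`, ALL the lists `F` of integer polynomials of distinct degrees between
`1` and `D` with coefficients of absolute value at most `log ^ W x` and nonnegative values at `n` and ALL the factors
`1 ≤ h ≤ log ^ J x`, ALL the even integers `m > 0` within `log ^ W x` of `h` times the integer whose digits in base `b` are those
of `f(n)`, `f ∈ F`, written one after the other have the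
following properties: there is a prime `p ≤ m / log ^ A m` such that `m - p` is a prime, that is `g(m) ≤ m / log ^ A m`; and
in every window `(y₁, y₂] ⊆ (0, m]` of a length of at least `m / log ^ A m` the number of the primes `p` such that `m - p` is a
prime is `sing m * (y₂ - y₁) / log ^ 2 m` up to a relative error of at most `ε`. -/
theorem result (D : ℕ) (ε : ℝ) (hε : 0 < ε) (A : ℕ) (J W U : ℕ) : ∃ x₀ : ℕ, ∀ x : ℕ, x₀ ≤ x →
    (exceptions D ε A J W x : ℝ) ≤ x / Real.log x ^ U := by
  classical
  obtain ⟨m₀, hm₀⟩ := holds_of A ε hε
  obtain ⟨x₀, h0⟩ := Pool.Agent.U837.CC.cat_mult_rev D (A + 1) W J U m₀ (min ε (1 / 2)) (lt_min hε (by norm_num))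
    (fun m => Holds ε A m) hm₀
  refine ⟨x₀, fun x hx => ?_⟩
  unfold exceptions
  refine h0 x hx _ ?_
  intro n hn
  rw [mem_filter] at hn
  obtain ⟨g1, b, F, ⟨⟨a1, a2⟩, a3, a4, a5⟩, h, m, g2⟩ := hn
  exact ⟨g1, b, F, a1, a2, ⟨a3, a4, a5⟩, h, m, g2⟩

end Pool.Agent.Results.MP_bae66e_nt.Concatenations
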