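import Mathlib
import Pool.Agent.U839.Lp.Main

set_option autoImplicit false

/-!
# The least summand in Goldbach representations, in random models of the primes

Let `g(n)` be the least prime `p` for which `n - p` is a prime. Granville, van de Lune and te Riele asked whether
`g(n) = O(log² n log log n)` for even `n`, on the basis of a probabilistic heuristic, which suggests that
`max_{n ≤ x} g(n)` is about `C₂⁻¹ log² x log log x`. We prove this in the sieved random models of the primes in which
the sieve is not too deep. Let `T` be nondecreasing, `T(n) ≤ (log n)^(o(1))` and `T(n) ≥ 2` for large `n`; the integers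
`n` without prime factors `p ≤ T(n)` are chosen independently with probability `∏_{p ≤ T(n)} (1 - 1/p)⁻¹ / log n`. Let
`κ` be the limit of `∏_{3 ≤ p ≤ T(n)} (1 - 1/(p - 1)²)`. Almost surely

(1) for every `ε > 0` every large even `n` is a sum `n = q + q'` of chosen integers with
`q ≤ (1 + ε) κ⁻¹ log² n log log n`: the question has a positive answer;

(2) for every `ε > 0` and all large `x` there is an even `n` between `x` and `2 x` such that all chosen `q`, `q'` with
`q + q' = n` are larger than `(1 - ε) κ⁻¹ log² n log log n`;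

and `κ = C₂`, the constant of the heuristic, if and only if `T(n) → ∞`.

Proof. The pairs `{q, n - q}` are disjoint, and so the probability that there is no representation with `q ≤ y` is at most
`exp(-S)`, where `S` is the expected number of these representations. By the fundamental lemma, on the intervals on which
`T(q)` and `T(n - q)` are constant, `S` is at least about `2 κ y / (log y log n)`, and this is attained for the `n` which
are not divisible by small odd primes. This gives (1). For (2) one fixes the set `R` of the chosen integers up to `y`: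
for `x^(1 - o(1))` integers `n` the events are then independent; the expected number of the `q ∈ R` for which `n - q` is
chosen is less than `(1 - η) log x` for all these `n`, outside an event of probability `O(x^(-3))`, by a Chernoff
bound with weights. So the probability that all these `n` have a representation with `q ≤ y` is very small.
-/

open MeasureTheory ProbabilityTheory Filter Topology

namespace Pool.Agent.Results.MP_bae66e_nt.LeastSummandInSievedModels

open Classical in
/-- `∏_{p ≤ T(n)} (1 - 1/p)⁻¹` if `n` has no prime factor `p ≤ T(n)`, and `0` otherwise. -/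
noncomputable def weight (T : ℕ → ℕ) (n : ℕ) : ℝ :=
  if ∀ p, p.Prime → p ≤ T n → ¬ p ∣ n then
    ∏ p ∈ (Finset.Icc 1 (T n)).filter Nat.Prime, (1 - 1 / (p : ℝ))⁻¹ else 0

/-- The random model: `E n` is the event that `n` is chosen; these events are independent and have
probability `weight T n / log n` (if this is at most `1`, which is the case for all large `n` here). -/
structure Model {Ω : Type*} [MeasurableSpace Ω] (μ : Measure Ω) (T : ℕ → ℕ) (E : ℕ → Set Ω) : Prop where
  meas : ∀ n, MeasurableSet (E n)
  indep : iIndepSet E μ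
  law : ∀ n : ℕ, μ.real (E n) = min 1 (weight T n / Real.log n)

/-- The partial products `∏_{3 ≤ p ≤ z} (1 - 1/(p - 1)²)` of the twin prime constant. -/
noncomputable def C (z : ℕ) : ℝ := ∏ p ∈ (Finset.Icc 3 z).filter Nat.Prime, (1 - 1 / ((p : ℝ) - 1) ^ 2)

/-- The twin prime constant `C₂ = ∏_{p > 2} (1 - 1/(p - 1)²)`. -/
noncomputable def C₂ : ℝ := ⨅ z : ℕ, C z

/-- `∏ (1 - 1/(p - 1)²)` over the odd primes which are sieved out in the end; it is `C₂` if `T(n) → ∞`. -/
noncomputable def κ (T : ℕ → ℕ) : ℝ := ⨅ n : ℕ, C (T n)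

/-- `log² n · log log n` -/
noncomputable def scale (n : ℕ) : ℝ := (Real.log n) ^ 2 * Real.log (Real.log n)

/-- (1), (2) and the criterion for `κ = C₂`. -/
theorem result {Ω : Type*} [MeasurableSpace Ω] {μ : Measure Ω} [IsProbabilityMeasure μ] (T : ℕ → ℕ)
    (hT : Monotone T) (hT2 : ∃ n, 2 ≤ T n)
    (hTl : ∀ ε : ℝ, 0 < ε → ∀ᶠ n : ℕ in atTop, (T n : ℝ) ≤ (Real.log n) ^ ε)
    (E : ℕ → Set Ω) (hE : Model μ T E) :
    (∀ᵐ ω ∂μ,
      (∀ ε : ℝ, 0 < ε → ∀ᶠ n : ℕ in atTop, 2 ∣ n → ∃ q q' : ℕ, ω ∈ E q ∧ ω ∈ E q' ∧ q + q' = n ∧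
        (q : ℝ) ≤ (1 + ε) / κ T * scale n) ∧
      (∀ ε : ℝ, 0 < ε → ∀ᶠ x : ℕ in atTop, ∃ n : ℕ, x < n ∧ n ≤ 2 * x ∧ 2 ∣ n ∧
        ∀ q q' : ℕ, ω ∈ E q → ω ∈ E q' → q + q' = n → (1 - ε) / κ T * scale n < q)) ∧
    (κ T = C₂ ↔ Tendsto T atTop atTop) := by
  have h : Pool.Agent.U839.Sv.Sieved μ E T := ⟨hE.meas, hE.indep, hE.law⟩
  refine ⟨?_, Pool.Agent.U839.Lp.kap_iff T hT⟩
  filter_upwards [Pool.Agent.U839.Lp.main Pool.Agent.U839.Lp.shift_sub T hT hT2 hTl h] with ω hω
  obtain ⟨h1, h2⟩ := hω
  constructor
  · intro ε hε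
    filter_upwards [h1 ε hε] with n hn hn2
    obtain ⟨q, hq0, hq1, hq2, hq3, hq4⟩ := hn hn2
    exact ⟨q, n - q, hq2, hq3, by omega, hq4⟩
  · intro ε hε
    filter_upwards [h2 ε hε] with x hx
    obtain ⟨n, hn1, hn2, hn3, hn4⟩ := hx
    refine ⟨n, hn1, hn2, hn3, fun q q' hq hq' hqq => ?_⟩
    have h3 : n - q = q' := by omega
    refine hn4 q hq ?_
    rw [h3]
    exact hq'

end Pool.Agent.Results.MP_bae66e_nt.LeastSummandInSievedModels
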