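import Pool.Agent.Results.MP_bae66e_nt.PalindromeWindows
import Pool.Agent.U837.RP.Mul

/-!
# The least prime in the Goldbach representations, and Goldbach pairs in all windows, for all even integers near the values
# of ALL small integer polynomials in several variables

For almost all points `n = (n_1, ..., n_k)` of the cube `[1, x] ^ k` the following holds for ALL the positive even integers
`m` within `log ^ W x` of the values `F(n)` of ALL the nonconstant integer polynomials `F` in `k` variables of degree at most
`D` with coefficients of absolute value at most `log ^ W x`: the least prime `g(m)` in the Goldbach representations of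
`m` is at most `m / log ^ A m`, and the number of the representations with a prime in a given window of this length is the
predicted one. Examples: `m` near `n_1 n_2 ⋯ n_k`, near `n_1 ^ 4 + n_2 ^ 4` and near `n_1 ^ 2 - 4 n_2 n_3`,
simultaneously. The values form thin sets: there are `x ^ k` points and the values have the size `x ^ deg F`.

Definitions used from `Pool.Agent.H560R3.GB` (starting files): `sing m`: the singular series
`2 C₂ ∏_{p ∣ m, p > 2} (p - 1) / (p - 2)`, where `C₂ = ∏_{p > 2} (1 - 1 / (p - 1) ^ 2)`.

Method: for a polynomial `F` of degree `d ≥ 1` there is a direction `a ∈ {0, ..., D} ^ k` (Combinatorial Nullstellensatz) such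
that `F` restricted to the lines `t ↦ n + t a` is a polynomial of degree `d` in `t` with a small leading coefficient, but with
arbitrarily large other coefficients. By the inverse theorem for Weyl sums (`H373R2/NB/Weyl`) the values of such a
polynomial at consecutive integers have a minimal additive energy of high order, uniformly in the other coefficients
(`Pool.Agent.U837.RP.poly_near`), and the theorem of the starting files on thin families of this kind
(`R459.near_even`) applies on every line. The number of the small polynomials is only a power of the logarithm.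
-/

set_option autoImplicit false

namespace Pool.Agent.Results.MP_bae66e_nt.SeveralVariables

open Finset
open Pool.Agent.H560R3.GB (sing)

/-- The number of primes `p` with `y₁ < p ≤ y₂` such that `m - p` is a prime. -/
def R (m y₁ y₂ : ℕ) : ℕ := ((Ioc y₁ y₂).filter (fun p => p.Prime ∧ (m - p).Prime)).card

/-- (1) There is a prime `p ≤ m / log ^ A m` such that `m - p` is a prime (thus `g(m) ≤ m / log ^ A m`
in the notation of the problem); (2) in every window `(y₁, y₂]` of a length of at least `m / log ^ A m`
with `0 ≤ y₁ < y₂ ≤ m` the number of primes `p` such that `m - p` is a prime agrees with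
`sing m * (y₂ - y₁) / log ^ 2 m` up to a relative error of at most `ε`. -/
def Holds (ε : ℝ) (A m : ℕ) : Prop :=
  (∃ p : ℕ, p.Prime ∧ (m - p).Prime ∧ (p : ℝ) ≤ m / Real.log m ^ A) ∧
  ∀ y₁ y₂ : ℕ, y₁ < y₂ → y₂ ≤ m → (m : ℝ) / Real.log m ^ A ≤ (y₂ : ℝ) - y₁ →
    |(R m y₁ y₂ : ℝ) - sing m * ((y₂ : ℝ) - y₁) / Real.log m ^ 2| ≤ ε * (sing m * ((y₂ : ℝ) - y₁) / Real.log m ^ 2)

lemma holds_of (A : ℕ) (ε : ℝ) (hε : 0 < ε) : ∃ m₀ : ℕ, ∀ m : ℕ, m₀ ≤ m → 2 ∣ m →
    Pool.Agent.W93.PG.WinP (min ε (1 / 2)) (A + 1) m → Holds ε A m := MP_bae66e_nt.PalindromeWindows.holds_of A ε hε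

/-- `F` is not constant, has a total degree of at most `D`, and its coefficients have an absolute value of at most `r`. -/
def Small {k : ℕ} (F : MvPolynomial (Fin k) ℤ) (D : ℕ) (r : ℝ) : Prop :=
  1 ≤ F.totalDegree ∧ F.totalDegree ≤ D ∧ ∀ s, |((F.coeff s : ℤ) : ℝ)| ≤ r

/-- The value of `F` at the point `n`. -/
noncomputable def value {k : ℕ} (F : MvPolynomial (Fin k) ℤ) (n : Fin k → ℕ) : ℤ :=
  MvPolynomial.eval (fun i => (n i : ℤ)) F

open Classical in
/-- The number of the points `n` of `{1, ..., x} ^ k` for which `Holds` fails for some even integer `m > 0` with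
`|m - F(n)| ≤ log ^ W x` and some `F` with `Small F D (log ^ W x)`. -/
noncomputable def exceptions (k D : ℕ) (ε : ℝ) (A : ℕ) (W x : ℕ) : ℕ :=
  ((Fintype.piFinset (fun _ : Fin k => Icc 1 x)).filter (fun n : Fin k → ℕ => ∃ F : MvPolynomial (Fin k) ℤ,
    Small F D (Real.log x ^ W) ∧ ∃ m : ℕ, 0 < m ∧ Even m ∧ |(m : ℝ) - value F n| ≤ Real.log x ^ W ∧ ¬ Holds ε A m)).card

/-- Let `k`, `D`, `A`, `W`, `U` and `ε > 0` be fixed, and let `x` be large. For all but at most `x ^ k / log ^ U x` of the points `n` of
`{1, ..., x} ^ k`, and for ALL the nonconstant integer polynomials `F` in `k` variables of total degree at most `D` with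
coefficients of absolute value at most `log ^ W x`, ALL the even integers `m > 0` with `|m - F(n)| ≤ log ^ W x` have the
following properties: there is a prime `p ≤ m / log ^ A m` such that `m - p` is a prime, that is `g(m) ≤ m / log ^ A m`; and
in every window `(y₁, y₂] ⊆ (0, m]` of a length of at least `m / log ^ A m` the number of the primes `p` such that `m - p` is a
prime is `sing m * (y₂ - y₁) / log ^ 2 m` up to a relative error of at most `ε`. -/
theorem result (k D A W U : ℕ) (ε : ℝ) (hε : 0 < ε) :
    ∃ x₀ : ℕ, ∀ x : ℕ, x₀ ≤ x → (exceptions k D ε A W x : ℝ) ≤ (x : ℝ) ^ k / Real.log x ^ U := by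
  classical
  obtain ⟨m₀, hm₀⟩ := holds_of A ε hε
  obtain ⟨x₀, h0⟩ := Pool.Agent.U837.RP.multi_values k D (A + 1) W U m₀ (min ε (1 / 2))
    (lt_min hε (by norm_num)) (Holds ε A) (fun m h1 h2 h3 => hm₀ m h1 h2 h3)
  refine ⟨x₀, fun x hx => ?_⟩
  unfold exceptions
  refine h0 x hx _ ?_
  intro n hn
  rw [mem_filter, Fintype.mem_piFinset] at hn
  obtain ⟨h1, F, ⟨F1, F2, F3⟩, m, m1, m2, m3, m4⟩ := hn
  exact ⟨h1, F, F1, F2, F3, m, m1, m2, m3, m4⟩

end Pool.Agent.Results.MP_bae66e_nt.SeveralVariables
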